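import Pool.Agent.Helper58.FL.Tools

/-!
# Project FL (MP_e8a4f2_al), module FL-15b: full faithfulness of `Y` is equivalent to that of `N`
-/

open CategoryTheory MonoidalCategory Opposite

set_option autoImplicit false

namespace Helper43.FL

open _root_.FL

universe u

section

variable {n : ℕ}

/-- Restriction of a map `Y D ⟶ Y D'` to the objects of `Θ_n`. -/
noncomputable def toN (hrep : ∀ θ : Th n, IsCat n (rep θ)) {D D' : SP (Gn n)}
    {m : SimplexCategory} (Φ : PSh.MapS (YD D) (YD D') m) : MpS (ND D) (ND D') m where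
  app a k s ψ := Φ.app ⟨rep a.unop, hrep _⟩ k s ψ
  nat_left {a b} f k s ψ :=
    Φ.act (C := ⟨rep b.unop, hrep _⟩) (C' := ⟨rep a.unop, hrep _⟩) s
      (MpS.ofHom k.unop (repMap f.unop)) ψ
  nat_right a _ _ g s ψ := Φ.nat ⟨rep a.unop, hrep _⟩ g s ψ

/-- The argument at which a map `N D ⟶ N D'` is evaluated. -/
noncomputable abbrev arg {C : SP (Th n)} {D : SP (Gn n)} {k l : SimplexCategoryᵒᵖ} {x : Th n}
    (ψ : MpS (filt C) D k.unop) (t : l.unop ⟶ k.unop) (c : (C.obj (op x)).obj l) :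
    MpS (filt (rep x)) D l.unop :=
  MpS.comp (filtS (yoS c)) (ψ.res t)

lemma yoS_map {C : SP (Th n)} {x x' : Th n} {k : SimplexCategory} (v : x' ⟶ x)
    (c : (C.obj (op x)).obj (op k)) :
    yoS ((C.map v.op).app (op k) c) = MpS.comp (MpS.ofHom k (repMap v)) (yoS c) := by
  refine MpS.ext ?_
  funext b l s w
  show (C.map (Quiver.Hom.op w)).app l ((C.obj (op x')).map s.op ((C.map v.op).app (op k) c)) =
    (C.map (Quiver.Hom.op (w ≫ v))).app l ((C.obj (op x)).map s.op c)
  rw [← sp_nat, ← sp_comp]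
  rfl

lemma yoS_res {C : SP (Th n)} {x : Th n} {k l : SimplexCategory} (α : l ⟶ k)
    (c : (C.obj (op x)).obj (op k)) :
    yoS ((C.obj (op x)).map α.op c) = (yoS c).res α := by
  refine MpS.ext ?_
  funext b m s w
  show (C.map (Quiver.Hom.op w)).app m ((C.obj (op x)).map s.op ((C.obj (op x)).map α.op c)) =
    (C.map (Quiver.Hom.op w)).app m ((C.obj (op x)).map (s ≫ α).op c)
  rw [← sset_comp]
  rfl

lemma yoS_comp {C C' : SP (Th n)} {x : Th n} {k : SimplexCategory} 
    (φ : MpS C C' k) (c : (C.obj (op x)).obj (op k)) :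
    MpS.comp (yoS c) φ = yoS (φ.app (op x) (op k) (𝟙 _) c) := by
  refine MpS.ext ?_
  funext b m s w
  show φ.app b m s ((C.map (Quiver.Hom.op w)).app m ((C.obj (op x)).map s.op c)) =
    (C'.map (Quiver.Hom.op w)).app m ((C'.obj (op x)).map s.op (φ.app (op x) (op k) (𝟙 _) c))
  rw [φ.nat_left, ← φ.nat_right]
  simp

lemma yoS_rep {a x : Th n} {k : SimplexCategory} (w : x ⟶ a) :
    yoS (C := rep a) (a := x) (k := k) w = MpS.ofHom k (repMap w) := by
  refine MpS.ext ?_
  funext b m s u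
  rfl

/-- Extension of a map `N D ⟶ N D'` to `Y D ⟶ Y D'`. -/
noncomputable def ofNapp {D D' : SP (Gn n)} {m : SimplexCategory} (Ψ : MpS (ND D) (ND D') m)
    {C : SP (Th n)} (k : SimplexCategoryᵒᵖ) (s : k.unop ⟶ m) (ψ : MpS (filt C) D k.unop) :
    MpS (filt C) D' k.unop where
  app g l t c := (Ψ.app (op ((tower n).obj g.unop)) l (t ≫ s)
    (arg ψ t (x := (tower n).obj g.unop) c) :
      MpS (filt (rep ((tower n).obj g.unop))) D' l.unop).app g l (𝟙 _) (𝟙 ((tower n).obj g.unop))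
  nat_left {g g'} f l t c := by
    set x := (tower n).obj g.unop with hx
    set x' := (tower n).obj g'.unop with hx'
    set v : x' ⟶ x := (tower n).map f.unop with hv
    have e1 : arg ψ t (x := x') ((C.map v.op).app l c) =
        MpS.comp (MpS.ofHom l.unop (Functor.whiskerLeft (tower n).op (repMap v)))
          (arg ψ t (x := x) c) := by
      exact congrArg (fun z : MpS (rep x') C l.unop => MpS.comp (filtS z) (ψ.res t))
        (yoS_map (k := l.unop) v c)
    have e2 := Ψ.nat_left (a := op x) (b := op x') v.op l (t ≫ s) (arg ψ t (x := x) c)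
    have e3 := (Ψ.app (op x) l (t ≫ s) (arg ψ t (x := x) c) :
      MpS (filt (rep x)) D' l.unop).nat_left f l (𝟙 _) (𝟙 x)
    refine Eq.trans ?_ e3
    refine (congrArg (fun z => (Ψ.app (op x') l (t ≫ s) z :
      MpS (filt (rep x')) D' l.unop).app g' l (𝟙 _) (𝟙 x')) e1).trans ?_
    refine (congrArg (fun z : MpS (filt (rep x')) D' l.unop => z.app g' l (𝟙 _) (𝟙 x')) e2).trans ?_
    exact congrArg (fun z => (Ψ.app (op x) l (t ≫ s) (arg ψ t (x := x) c) :
      MpS (filt (rep x)) D' l.unop).app g' l (𝟙 _) z)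
      ((Category.id_comp v).trans (Category.comp_id v).symm)
  nat_right g {l l'} α t c := by
    set x := (tower n).obj g.unop with hx
    have e1 : arg ψ (l := l') (α.unop ≫ t) (x := x) ((C.obj (op x)).map α c) =
        (arg ψ t (x := x) c).res α.unop := by
      unfold arg
      refine MpS.ext ?_
      funext b r u w
      show ψ.app b r (u ≫ α.unop ≫ t) _ = ψ.app b r ((u ≫ α.unop) ≫ t) _
      rw [Category.assoc]
      exact congrArg (fun z : MpS (rep x) C l'.unop => ψ.app b r (u ≫ α.unop ≫ t) (z.app _ r u w))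
        (yoS_res α.unop c)
    have e2 := Ψ.nat_right (op x) α (t ≫ s) (arg ψ t (x := x) c)
    have e3 := (Ψ.app (op x) l (t ≫ s) (arg ψ t (x := x) c) :
      MpS (filt (rep x)) D' l.unop).nat_right g α (𝟙 _) (𝟙 x)
    refine Eq.trans ?_ e3
    refine (congrArg (fun z => (Ψ.app (op x) l' ((α.unop ≫ t) ≫ s) z :
      MpS (filt (rep x)) D' l'.unop).app g l' (𝟙 _) (𝟙 x)) e1).trans ?_
    have e4 : (α.unop ≫ t) ≫ s = α.unop ≫ t ≫ s := Category.assoc _ _ _
    rw [e4]
    refine (congrArg (fun z : MpS (filt (rep x)) D' l'.unop => z.app g l' (𝟙 _) (𝟙 x)) e2).trans ?_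
    exact congrArg (fun z => (Ψ.app (op x) l (t ≫ s) (arg ψ t (x := x) c) :
      MpS (filt (rep x)) D' l.unop).app g l' z (𝟙 x))
      ((Category.id_comp α.unop).trans (Category.comp_id α.unop).symm)

/-- Extension of a map `N D ⟶ N D'` to a map `Y D ⟶ Y D'`. -/
noncomputable def ofN {D D' : SP (Gn n)} {m : SimplexCategory} (Ψ : MpS (ND D) (ND D') m) :
    PSh.MapS (YD D) (YD D') m where
  app C k s ψ := ofNapp Ψ (C := C.1) k s ψ
  nat C {k l} g s ψ := by
    refine MpS.ext ?_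
    funext b r t c
    set x := (tower n).obj b.unop with hx
    have e1 : arg (k := l) (MpS.res g.unop (ψ : MpS (filt C.1) D k.unop)) t (x := x) c =
        arg (k := k) ψ (t ≫ g.unop) (x := x) c := by
      refine MpS.ext ?_
      funext b' r' u w
      exact congrArg (fun z => MpS.app (ψ : MpS (filt C.1) D k.unop) b' r' z _)
        (Category.assoc u t g.unop)
    show (Ψ.app (op x) r (t ≫ g.unop ≫ s) (arg (k := l)
      (MpS.res g.unop (ψ : MpS (filt C.1) D k.unop)) t (x := x) c) :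
        MpS (filt (rep x)) D' r.unop).app b r (𝟙 _) (𝟙 x) =
      (Ψ.app (op x) r ((t ≫ g.unop) ≫ s) (arg (k := k) ψ (t ≫ g.unop) (x := x) c) :
        MpS (filt (rep x)) D' r.unop).app b r (𝟙 _) (𝟙 x)
    rw [e1, Category.assoc]
  act {C C' k} s φ ψ := by
    refine MpS.ext ?_
    funext b r t c
    set x := (tower n).obj b.unop with hx
    have e1 : arg (k := k) (MpS.comp (filtS φ) (ψ : MpS (filt C'.1) D k.unop)) t (x := x) c =
        arg (k := k) (C := C'.1) ψ t (x := x) (φ.app (op x) r t c) := by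
      refine MpS.ext ?_
      funext b' r' u w
      have e2 := yoS_comp (C := C.1) (C' := C'.1) (x := x) (MpS.res t φ) c
      have e3 := congrArg (fun z : MpS (rep x) C'.1 r.unop => z.app _ r' u w) e2
      refine (congrArg (fun z => MpS.app (ψ : MpS (filt C'.1) D k.unop) b' r' (u ≫ t) z) e3).trans ?_
      refine congrArg (fun z => MpS.app (ψ : MpS (filt C'.1) D k.unop) b' r' (u ≫ t)
        ((yoS (C := C'.1) (a := x) (k := r.unop) (φ.app (op x) r z c)).app _ r' u w)) ?_
      exact Category.id_comp t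
    show (Ψ.app (op x) r (t ≫ s) (arg (k := k)
      (MpS.comp (filtS φ) (ψ : MpS (filt C'.1) D k.unop)) t (x := x) c) :
        MpS (filt (rep x)) D' r.unop).app b r (𝟙 _) (𝟙 x) =
      (Ψ.app (op x) r (t ≫ s) (arg (k := k) (C := C'.1) ψ t (x := x) (φ.app (op x) r t c)) :
        MpS (filt (rep x)) D' r.unop).app b r (𝟙 _) (𝟙 x)
    rw [e1]

lemma toN_ofN (hrep : ∀ θ : Th n, IsCat n (rep θ)) {D D' : SP (Gn n)} {m : SimplexCategory}
    (Ψ : MpS (ND D) (ND D') m) : toN hrep (ofN Ψ) = Ψ := by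
  refine MpS.ext ?_
  funext a k s ψ
  refine MpS.ext ?_
  funext g l t u
  set x := (tower n).obj g.unop with hx
  have e2 := Ψ.nat_left (a := a) (b := op x) (Quiver.Hom.op (u : x ⟶ a.unop)) l (t ≫ s)
    (MpS.res t (ψ : MpS (filt (rep a.unop)) D k.unop))
  have e3 := Ψ.nat_right a t.op s ψ
  refine (congrArg (fun z : MpS (filt (rep x)) D' l.unop => z.app g l (𝟙 _) (𝟙 x)) e2).trans ?_
  refine (congrArg (fun z : MpS (filt (rep a.unop)) D' l.unop =>
    z.app g l (𝟙 _) (𝟙 x ≫ (u : x ⟶ a.unop))) e3).trans ?_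
  show (Ψ.app a k s ψ : MpS (filt (rep a.unop)) D' k.unop).app g l (𝟙 _ ≫ t)
    (𝟙 x ≫ (u : x ⟶ a.unop)) = _
  rw [Category.id_comp]
  exact congrArg ((Ψ.app a k s ψ : MpS (filt (rep a.unop)) D' k.unop).app g l t)
    (Category.id_comp (u : x ⟶ a.unop))

lemma ofN_toN (hrep : ∀ θ : Th n, IsCat n (rep θ)) {D D' : SP (Gn n)} {m : SimplexCategory}
    (Φ : PSh.MapS (YD D) (YD D') m) : ofN (toN hrep Φ) = Φ := by
  refine PSh.MapS.ext ?_
  funext C k s ψ
  refine MpS.ext ?_
  funext g l t c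
  set x := (tower n).obj g.unop with hx
  have e1 := Φ.act (C := ⟨rep x, hrep x⟩) (C' := C) (k := l) (t ≫ s)
    (yoS (C := C.1) (a := x) (k := l.unop) c) (MpS.res t (ψ : MpS (filt C.1) D k.unop))
  have e2 := Φ.nat C t.op s ψ
  refine (congrArg (fun z : MpS (filt (rep x)) D' l.unop => z.app g l (𝟙 _) (𝟙 x)) e1).trans ?_
  refine (congrArg (fun z : MpS (filt C.1) D' l.unop =>
    z.app g l (𝟙 _) ((C.1.map (𝟙 x).op).app l ((C.1.obj (op x)).map (𝟙 l.unop).op c))) e2).trans ?_
  show (Φ.app C k s ψ : MpS (filt C.1) D' k.unop).app g l (𝟙 _ ≫ t) _ = _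
  rw [Category.id_comp]
  refine congrArg ((Φ.app C k s ψ : MpS (filt C.1) D' k.unop).app g l t) ?_
  refine (sp_id C.1 _).trans ?_
  exact sset_id _ _

/-- The comparison isomorphism. -/
noncomputable def mapIso (hrep : ∀ θ : Th n, IsCat n (rep θ)) (D D' : SP (Gn n)) :
    PSh.Map (YD D) (YD D') ≅ SSet.uliftFunctor.{1, 0}.obj (Mp (ND D) (ND D')) where
  hom :=
    { app := fun m => ↾ fun Φ => ULift.up (toN hrep Φ)
      naturality := fun m m' α => by
        ext Φ
        rfl }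
  inv :=
    { app := fun m => ↾ fun Ψ => ofN Ψ.down
      naturality := fun m m' α => by
        ext Ψ
        refine PSh.MapS.ext ?_
        funext C k s ψ
        rfl }
  hom_inv_id := by
    ext m Φ
    exact ofN_toN hrep Φ
  inv_hom_id := by
    ext m Ψ
    exact congrArg ULift.up (toN_ofN hrep Ψ.down)

lemma mapIso_comp (hrep : ∀ θ : Th n, IsCat n (rep θ)) (D D' : SP (Gn n)) :
    YDmap D D' ≫ (mapIso hrep D D').hom = SSet.uliftFunctor.{1, 0}.map (NDmap D D') := by
  ext m φ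
  rfl

/-- Full faithfulness of `Y` is equivalent to full faithfulness of `N` (the two hypotheses are
lemmas of module FL-1). -/
theorem YDmap_iff_of
    (h₁ : ∀ {X Y X' Y' : SSet.{1}} {f : X ⟶ Y} {f' : X' ⟶ Y'} (e : X ≅ X') (e' : Y ≅ Y'),
      f ≫ e'.hom = e.hom ≫ f' → HoEq f → HoEq f')
    (h₂ : ∀ {X Y : SSet.{0}} (f : X ⟶ Y), HoEq (SSet.uliftFunctor.{1, 0}.map f) ↔ HoEq f)
    (hrep : ∀ θ : Th n, IsCat n (rep θ)) (D D' : SP (Gn n)) :
    HoEq (YDmap D D') ↔ HoEq (NDmap D D') := by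
  rw [← h₂ (NDmap D D')]
  constructor
  · intro h
    refine h₁ (Iso.refl _) (mapIso hrep D D') ?_ h
    rw [mapIso_comp, Iso.refl_hom, Category.id_comp]
  · intro h
    refine h₁ (Iso.refl _) (mapIso hrep D D').symm ?_ h
    rw [← mapIso_comp hrep, Iso.symm_hom, Category.assoc, Iso.hom_inv_id, Category.comp_id,
      Iso.refl_hom, Category.id_comp]

end

end Helper43.FL
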