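import Pool.Agent.Helper43.FL.YFF
import Pool.Agent.Helper88.FL.Htpy

/-!
# FL-15b: `YDmap_iff` without hypotheses on `HoEq`
-/

open CategoryTheory

set_option autoImplicit false

namespace Helper43.FL

open _root_.FL

/-- Full faithfulness of `Y` is equivalent to full faithfulness of `N`. -/
theorem YDmap_iff {n : ℕ} (hrep : ∀ θ : Th n, IsCat n (rep θ)) (D D' : SP (Gn n)) :
    HoEq (YDmap D D') ↔ HoEq (NDmap D D') :=
  YDmap_iff_of (fun e e' h hf => Pool.Agent.Helper88.FL.hoEq_of_arrow_iso e e' h hf)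
    (fun f => Pool.Agent.Helper88.FL.hoEq_ulift_iff f) hrep D D'

end Helper43.FL
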